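import Pool.Agent.H71.CR.Stmt

/-! DC2: a good piece contains a good piece which decides a given piece. -/

set_option autoImplicit false

open Set Pool.Agent.TK Pool.Agent.H71.VK

namespace Pool.Agent.CR

theorem pf_DC2 (hDEC : T_DEC) (hPFI : T_PFI) : T_DC2 := by
  intro n c Sm G π ρ hπ hρ hN
  obtain ⟨s, h1, h2, h3⟩ := hDEC n c Sm G π hπ hN (st c ρ) (hPFI n c G.lb ρ hρ)
  exact ⟨[s], h1, h2, h3⟩

end Pool.Agent.CR
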